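import Mathlib

set_option autoImplicit false

/-!
Generic choice of elements modulo all height one primes (problem `MP_0a8f3f_ag`).
-/

namespace Pool.Agent.X177.TS

section Abstract

variable {S : Type} [CommRing S] {N : ℕ}

/-- The map to the residue field. -/
noncomputable def red (P : Ideal S) : S →+* FractionRing (S ⧸ P) :=
  (algebraMap (S ⧸ P) (FractionRing (S ⧸ P))).comp (Ideal.Quotient.mk P)

theorem red_eq_zero (P : Ideal S) [P.IsPrime] {a : S} : red P a = 0 ↔ a ∈ P := by
  unfold red
  rw [RingHom.comp_apply, map_eq_zero_iff _ (IsFractionRing.injective (S ⧸ P) _),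
    Ideal.Quotient.eq_zero_iff_mem]

/-- `x` is dependent on `w` modulo `P`. -/
def Dep (P : Ideal S) {ι : Type} [Fintype ι] (w : ι → Fin N → S) (x : Fin N → S) : Prop :=
  ∃ g, g ∉ P ∧ ∃ a : ι → S, ∀ j, g * x j - ∑ i, a i * w i j ∈ P

/-- `w` is independent modulo `P`. -/
def Indep (P : Ideal S) {ι : Type} [Fintype ι] (w : ι → Fin N → S) : Prop :=
  ∀ a : ι → S, (∀ j, ∑ i, a i * w i j ∈ P) → ∀ i, a i ∈ P

theorem clear (P : Ideal S) [P.IsPrime] {ι : Type} [Finite ι]
    (q : ι → FractionRing (S ⧸ P)) :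
    ∃ b, b ∉ P ∧ ∃ l : ι → S, ∀ j, red P b * q j = red P (l j) := by
  obtain ⟨b, hb⟩ := IsLocalization.exist_integer_multiples_of_finite
    (nonZeroDivisors (S ⧸ P)) q
  choose l hl using hb
  obtain ⟨b', hb'⟩ := Ideal.Quotient.mk_surjective (b : S ⧸ P)
  choose l' hl' using fun i => Ideal.Quotient.mk_surjective (l i)
  refine ⟨b', ?_, l', fun j => ?_⟩
  · intro h
    rw [← Ideal.Quotient.eq_zero_iff_mem, hb'] at h
    exact nonZeroDivisors.coe_ne_zero b h
  · unfold red
    rw [RingHom.comp_apply, RingHom.comp_apply, hb', hl', hl j, Algebra.smul_def]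

theorem dep_iff (P : Ideal S) [P.IsPrime] {ι : Type} [Fintype ι] (w : ι → Fin N → S)
    (x : Fin N → S) : Dep P w x ↔ (fun j => red P (x j)) ∈
      Submodule.span (FractionRing (S ⧸ P)) (Set.range fun i j => red P (w i j)) := by
  rw [Submodule.mem_span_range_iff_exists_fun]
  constructor
  · rintro ⟨g, hg, a, h⟩
    have hg' : red P g ≠ 0 := fun h' => hg ((red_eq_zero P).1 h')
    refine ⟨fun i => red P (a i) / red P g, ?_⟩
    funext j
    have h1 := (red_eq_zero P).2 (h j)
    rw [map_sub, map_mul, map_sum, sub_eq_zero] at h1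
    rw [Finset.sum_apply]
    simp only [Pi.smul_apply, smul_eq_mul]
    rw [← mul_right_inj' hg', h1, Finset.mul_sum]
    refine Finset.sum_congr rfl fun i _ => ?_
    rw [map_mul]
    field_simp
  · rintro ⟨c, hc⟩
    obtain ⟨b, hb, l, hl⟩ := clear P c
    refine ⟨b, hb, l, fun j => ?_⟩
    rw [← red_eq_zero, map_sub, map_mul, map_sum, sub_eq_zero]
    have h1 := congrFun hc j
    rw [Finset.sum_apply] at h1
    simp only [Pi.smul_apply, smul_eq_mul] at h1
    rw [← h1, Finset.mul_sum]
    refine Finset.sum_congr rfl fun i _ => ?_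
    rw [map_mul, ← hl, mul_assoc]

theorem indep_snoc (P : Ideal S) [P.IsPrime] {k : ℕ} {w : Fin k → Fin N → S} {x : Fin N → S}
    (hw : Indep P w) (hx : ¬ Dep P w x) : Indep P (Fin.snoc w x : Fin (k + 1) → Fin N → S) := by
  intro a ha
  have h1 : a (Fin.last k) ∈ P := by
    by_contra hcon
    refine hx ⟨a (Fin.last k), hcon, fun i => -a i.castSucc, fun j => ?_⟩
    have h2 := ha j
    rw [Fin.sum_univ_castSucc] at h2
    simp only [Fin.snoc_castSucc, Fin.snoc_last] at h2
    have h3 : a (Fin.last k) * x j - ∑ i, -a (Fin.castSucc i) * w i j =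
        ∑ i : Fin k, a i.castSucc * w i j + a (Fin.last k) * x j := by
      simp only [neg_mul, Finset.sum_neg_distrib]
      ring
    rw [h3]
    exact h2
  have h2 := hw (fun i => a i.castSucc) fun j => by
    have h3 := ha j
    rw [Fin.sum_univ_castSucc] at h3
    simp only [Fin.snoc_castSucc, Fin.snoc_last] at h3
    exact (Ideal.add_mem_iff_left P (P.mul_mem_right _ h1)).1 h3
  intro i
  exact Fin.lastCases h1 (fun i => h2 i) i

theorem exists_not_dep (P : Ideal S) [P.IsPrime] {m n r : ℕ} (ρ : Fin m → Fin N → S)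
    (hdim : n ≤ Module.finrank (FractionRing (S ⧸ P)) (Submodule.span (FractionRing (S ⧸ P))
      (Set.range fun i j => red P (ρ i j)))) (y : Fin r → Fin N → S) (j : Fin m)
    (h : r + (m - 1 - j) < n) : ∃ l, l ≤ j ∧ ¬ Dep P y (ρ l) := by
  by_contra hcon
  push Not at hcon
  let κ := FractionRing (S ⧸ P)
  let u : Fin r ⊕ {l : Fin m // j < l} → (Fin N → κ) :=
    Sum.elim (fun i j => red P (y i j)) (fun l t => red P (ρ l.1 t))
  have h1 : Submodule.span κ (Set.range fun i j => red P (ρ i j)) ≤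
      Submodule.span κ (Set.range u) := by
    rw [Submodule.span_le]
    rintro _ ⟨l, rfl⟩
    rcases le_or_gt l j with h2 | h2
    · have h3 := (dep_iff P y (ρ l)).1 (hcon l h2)
      refine Submodule.span_mono ?_ h3
      rintro _ ⟨i, rfl⟩
      exact ⟨Sum.inl i, rfl⟩
    · exact Submodule.subset_span ⟨Sum.inr ⟨l, h2⟩, rfl⟩
  have h2 := Submodule.finrank_mono h1
  have h3 : Module.finrank κ (Submodule.span κ (Set.range u)) ≤ r + (m - 1 - j) := by
    have h4 := finrank_range_le_card (R := κ) (b := u)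
    refine h4.trans ?_
    rw [Fintype.card_sum, Fintype.card_fin]
    have h5 : Fintype.card {l : Fin m // j < l} = m - 1 - j := by
      rw [Fintype.card_subtype, ← Fin.card_Ioi]
      congr 1
      ext l
      simp
    rw [h5]
  exact absurd (hdim.trans (h2.trans h3)) (not_le.2 h)

end Abstract

end Pool.Agent.X177.TS
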