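import Pool.Agent.X177.TS.Poly

set_option autoImplicit false

namespace Pool.Agent.X177.TS

open MvPolynomial

section

variable {r m : ℕ}

/-- `x` is a nonzero multiple of `ρ j` plus a homogeneous combination of the earlier ones. -/
def Nice (ρ : Fin m → Fin (r + 2) → PP r) (dd : Fin m → ℕ) (j : Fin m)
    (x : Fin (r + 2) → PP r) : Prop :=
  ∃ h : Fin m → PP r, (∀ l, j < l → h l = 0) ∧ (∀ l, (h l).IsHomogeneous (dd j - dd l)) ∧
    (∃ c : ℂ, c ≠ 0 ∧ h j = C c) ∧ ∀ t, x t = ∑ l, h l * ρ l t

theorem build {f : PP r} (hi0 : ∃ i, pderiv i f ≠ 0)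
    (hiπ : ∀ π : PP r, Prime π → ∃ i, ¬ π ∣ pderiv i f) {ρ : Fin m → Fin (r + 2) → PP r}
    (hρ : Submodule.span (PP r) (Set.range ρ) = syz f) (dd : Fin m → ℕ) (hm : r ≤ m) (k : ℕ)
    (hk : k ≤ r) : ∃ w : Fin k → Fin (r + 2) → PP r,
      (∀ (t : Fin k) (j : Fin m), (j : ℕ) = m - r + t → Nice ρ dd j (w t)) ∧
      (∀ π : PP r, Prime π → Indep (Ideal.span {π}) w) ∧ Indep ⊥ w := by
  induction k with
  | zero => exact ⟨Fin.elim0, fun t => t.elim0, fun π _ a _ i => i.elim0, fun a _ i => i.elim0⟩
  | succ k ih =>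
    obtain ⟨w, hw, hwπ, hw0⟩ := ih (by omega)
    set j : Fin m := ⟨m - r + k, by omega⟩ with hj
    let v : Fin m × Fin (r + 2) → Fin (r + 2) → PP r := fun i =>
      if i.1 ≤ j then (fun t => (X i.2 : PP r) ^ (dd j - dd i.1) * ρ i.1 t) else 0
    have hv : ∀ l s, l ≤ j → v (l, s) = fun t => (X s : PP r) ^ (dd j - dd l) * ρ l t :=
      fun l s h => if_pos h
    have hv' : ∀ l s, ¬ l ≤ j → v (l, s) = 0 := fun l s h => if_neg h
    have hp : (⊥ : Ideal (PP r)).IsPrime := Ideal.isPrime_bot
    have hbot : ∀ (q : ℕ) (y : Fin q → Fin (r + 2) → PP r), q + (m - 1 - j) < r + 1 →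
        ∃ l, ¬ Dep ⊥ y (v (l, 0)) := by
      intro q y hq
      obtain ⟨i, hi⟩ := hi0
      obtain ⟨l, hl, hl'⟩ := exists_not_dep ⊥ ρ (hdim hρ ⊥ (i := i)
        (fun h => hi (Ideal.mem_bot.1 h))) y j hq
      refine ⟨l, ?_⟩
      rw [hv l 0 hl]
      intro h
      refine hl' (dep_of_mul ⊥ (fun h1 => ?_) h)
      exact pow_ne_zero _ (X_ne_zero _) (Ideal.mem_bot.1 h1)
    have hj1 : m - 1 - (j : ℕ) = r - 1 - k := by
      show m - 1 - (m - r + k) = r - 1 - k
      omega
    obtain ⟨l1, hl1⟩ := hbot k w (by rw [hj1]; omega)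
    obtain ⟨l2, hl2⟩ := hbot (k + 1) (Fin.snoc w (v (l1, 0))) (by rw [hj1]; omega)
    let φ : (Fin m × Fin (r + 2) → ℂ) →ₗ[ℂ] ℂ :=
      { toFun := fun c => ∑ s, c (j, s)
        map_add' := fun c c' => by simp [Finset.sum_add_distrib]
        map_smul' := fun a c => by simp [Finset.mul_sum] }
    obtain ⟨c, hc0, hcπ, hcb⟩ := step (k := ℂ) w v (by
      intro π hπ
      have := span_isPrime hπ
      obtain ⟨i, hi⟩ := hiπ π hπ
      obtain ⟨l, hl, hl'⟩ := exists_not_dep (Ideal.span {π}) ρ (hdim hρ (Ideal.span {π}) (i := i)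
        (fun h => hi (Ideal.mem_span_singleton.1 h))) w j (by rw [hj1]; omega)
      obtain ⟨s, hs⟩ := exists_X_not_mem hπ
      refine ⟨(l, s), ?_⟩
      rw [hv l s hl]
      intro h
      exact hl' (dep_of_mul _ (fun h1 => hs (Ideal.IsPrime.mem_of_pow_mem ‹_› _ h1)) h))
      (l1, 0) (l2, 0) hl1 hl2 (LinearMap.ker φ) (by
      intro h
      have h1 : φ (Pi.single (j, 0) 1) = 0 := by
        rw [← LinearMap.mem_ker, h]
        trivial
      have h2 : φ (Pi.single (j, 0) 1) = 1 := by
        show ∑ s, (Pi.single (j, (0 : Fin (r + 2))) (1 : ℂ) : Fin m × Fin (r + 2) → ℂ) (j, s) = 1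
        rw [Finset.sum_eq_single 0]
        · simp
        · intro b _ hb
          rw [Pi.single_eq_of_ne]
          simpa using hb
        · simp
      rw [h2] at h1
      exact one_ne_zero h1)
    refine ⟨Fin.snoc w (comb v c), fun t => ?_, fun π hπ => ?_, indep_snoc ⊥ hw0 hcb⟩
    · refine Fin.lastCases ?_ (fun t => ?_) t
      · intro j' hj'
        have hjj : j' = j := Fin.ext (by rw [hj']; simp [hj])
        rw [hjj, Fin.snoc_last]
        refine ⟨fun l => if l ≤ j then ∑ s, C (c (l, s)) * (X s : PP r) ^ (dd j - dd l) else 0,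
          fun l hl => if_neg (not_le.2 hl), fun l => ?_, ⟨∑ s, c (j, s), ?_, ?_⟩, fun t => ?_⟩
        · show (if l ≤ j then ∑ s, C (c (l, s)) * (X s : PP r) ^ (dd j - dd l)
            else 0).IsHomogeneous (dd j - dd l)
          split_ifs with h
          · refine IsHomogeneous.sum _ _ _ fun s _ => ?_
            have h1 := (isHomogeneous_C (Fin (r + 2)) (c (l, s))).mul
              ((isHomogeneous_X ℂ s).pow (dd j - dd l))
            simpa using h1
          · exact isHomogeneous_zero _ _ _
        · intro h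
          exact hc0 h
        · show (if j ≤ j then ∑ s, C (c (j, s)) * (X s : PP r) ^ (dd j - dd j) else 0) =
            C (∑ s, c (j, s))
          rw [if_pos le_rfl, map_sum]
          simp
        · show ∑ i, algebraMap ℂ (PP r) (c i) * v i t = ∑ l, (if l ≤ j then ∑ s, C (c (l, s)) *
            (X s : PP r) ^ (dd j - dd l) else 0) * ρ l t
          rw [Fintype.sum_prod_type]
          refine Finset.sum_congr rfl fun l _ => ?_
          split_ifs with h
          · rw [Finset.sum_mul]
            refine Finset.sum_congr rfl fun s _ => ?_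
            rw [hv l s h, algebraMap_eq, mul_assoc]
          · rw [zero_mul]
            refine Finset.sum_eq_zero fun s _ => ?_
            rw [hv' l s h]
            simp
      · intro j' hj'
        rw [Fin.snoc_castSucc]
        exact hw t j' hj'
    · have := span_isPrime hπ
      exact indep_snoc _ (hwπ π hπ) (hcπ π hπ)

/-- Homogeneous generators of the module of syzygies. -/
def HomGen (f : PP r) (m : ℕ) (ρ : Fin m → Fin (r + 2) → PP r) : Prop :=
  (∀ i, ∃ e, ∀ j, (ρ i j).IsHomogeneous e) ∧ Submodule.span (PP r) (Set.range ρ) = syz f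

theorem component_mem {f : PP r} {d : ℕ} (hf : f.IsHomogeneous d) {a : Fin (r + 2) → PP r}
    (ha : a ∈ syz f) (e : ℕ) : (fun j => homogeneousComponent e (a j)) ∈ syz f := by
  rw [mem_syz] at ha ⊢
  obtain ⟨D, hD⟩ : ∃ D, ∀ j, (a j).totalDegree < D :=
    ⟨(Finset.univ.sup fun j => (a j).totalDegree) + 1, fun j =>
      Nat.lt_succ_of_le (Finset.le_sup (f := fun j => (a j).totalDegree) (Finset.mem_univ j))⟩
  have h1 : ∀ j, a j = ∑ i ∈ Finset.range D, homogeneousComponent i (a j) := by
    intro j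
    conv_lhs => rw [← sum_homogeneousComponent (a j)]
    refine Finset.sum_subset (fun i hi => ?_) fun i _ hi => ?_
    · rw [Finset.mem_range] at hi ⊢
      have := hD j
      omega
    · apply homogeneousComponent_eq_zero
      rw [Finset.mem_range] at hi
      omega
  have h2 : ∑ i ∈ Finset.range D, ∑ j, homogeneousComponent i (a j) * pderiv j f = 0 := by
    rw [Finset.sum_comm, ← ha]
    refine Finset.sum_congr rfl fun j _ => ?_
    rw [← Finset.sum_mul, ← h1]
  have h3 : ∀ i, (∑ j, homogeneousComponent i (a j) * pderiv j f).IsHomogeneous (i + (d - 1)) :=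
    fun i => IsHomogeneous.sum _ _ _ fun j _ =>
      (homogeneousComponent_isHomogeneous i (a j)).mul hf.pderiv
  have h4 := congrArg (homogeneousComponent (e + (d - 1))) h2
  rw [map_sum, map_zero] at h4
  have h5 : ∀ i ∈ Finset.range D, homogeneousComponent (e + (d - 1))
      (∑ j, homogeneousComponent i (a j) * pderiv j f) =
      if i = e then ∑ j, homogeneousComponent e (a j) * pderiv j f else 0 := by
    intro i _
    rw [homogeneousComponent_of_mem (h3 i)]
    by_cases h6 : i = e
    · rw [h6]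
      simp
    · rw [if_neg h6, if_neg (by omega)]
  rw [Finset.sum_congr rfl h5, Finset.sum_ite_eq' (Finset.range D) e] at h4
  by_cases h6 : e ∈ Finset.range D
  · rwa [if_pos h6] at h4
  · refine Finset.sum_eq_zero fun j _ => ?_
    rw [homogeneousComponent_eq_zero, zero_mul]
    rw [Finset.mem_range] at h6
    have := hD j
    omega

theorem exists_homGen {f : PP r} {d : ℕ} (hf : f.IsHomogeneous d) :
    ∃ (m : ℕ) (ρ : Fin m → Fin (r + 2) → PP r), HomGen f m ρ := by
  obtain ⟨G, hG⟩ := IsNoetherian.noetherian (syz f)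
  obtain ⟨D, hD⟩ : ∃ D, ∀ a ∈ G, ∀ j, (a j).totalDegree < D :=
    ⟨(G.sup fun a => Finset.univ.sup fun j => (a j).totalDegree) + 1, fun a ha j =>
      Nat.lt_succ_of_le ((Finset.le_sup (f := fun j => (a j).totalDegree)
        (Finset.mem_univ j)).trans (Finset.le_sup (f := fun a : Fin (r + 2) → PP r =>
          Finset.univ.sup fun j => (a j).totalDegree) ha))⟩
  let e := Fintype.equivFin (G × Fin D)
  refine ⟨Fintype.card (G × Fin D), fun i => fun j =>
    homogeneousComponent ((e.symm i).2 : ℕ) ((e.symm i).1.1 j), fun i =>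
    ⟨(e.symm i).2, fun j => homogeneousComponent_isHomogeneous _ _⟩, le_antisymm ?_ ?_⟩
  · rw [Submodule.span_le]
    rintro _ ⟨i, rfl⟩
    refine component_mem hf ?_ _
    rw [← hG]
    exact Submodule.subset_span (e.symm i).1.2
  · rw [← hG, Submodule.span_le]
    intro a ha
    have h1 : a = ∑ i : Fin D, fun j => homogeneousComponent (i : ℕ) (a j) := by
      funext j
      rw [Finset.sum_apply, Finset.sum_range (fun i => homogeneousComponent i (a j)) |>.symm]
      conv_lhs => rw [← sum_homogeneousComponent (a j)]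
      refine Finset.sum_subset (fun i hi => ?_) fun i _ hi => ?_
      · rw [Finset.mem_range] at hi ⊢
        have := hD a ha j
        omega
      · apply homogeneousComponent_eq_zero
        rw [Finset.mem_range] at hi
        omega
    rw [h1]
    refine Submodule.sum_mem _ fun i _ => Submodule.subset_span ⟨e (⟨a, ha⟩, i), ?_⟩
    simp

end

end Pool.Agent.X177.TS
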