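import Pool.Agent.X177.TS.Step

set_option autoImplicit false

namespace Pool.Agent.X177.TS

open MvPolynomial

/-- Polynomials in `r + 2` variables. -/
abbrev PP (r : ℕ) := MvPolynomial (Fin (r + 2)) ℂ

section

variable {r : ℕ}

/-- Jacobian syzygies. -/
noncomputable def syz (f : PP r) : Submodule (PP r) (Fin (r + 2) → PP r) where
  carrier := {a | ∑ j, a j * pderiv j f = 0}
  add_mem' := by
    intro a b ha hb
    show ∑ j, (a + b) j * pderiv j f = 0
    simp only [Pi.add_apply, add_mul, Finset.sum_add_distrib]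
    rw [show ∑ j, a j * pderiv j f = 0 from ha, show ∑ j, b j * pderiv j f = 0 from hb, add_zero]
  zero_mem' := by
    show ∑ j, (0 : Fin (r + 2) → PP r) j * pderiv j f = 0
    simp
  smul_mem' := by
    intro c a ha
    show ∑ j, (c • a) j * pderiv j f = 0
    simp only [Pi.smul_apply, smul_eq_mul, mul_assoc]
    rw [← Finset.mul_sum, show ∑ j, a j * pderiv j f = 0 from ha, mul_zero]

theorem mem_syz {f : PP r} {a : Fin (r + 2) → PP r} : a ∈ syz f ↔ ∑ j, a j * pderiv j f = 0 :=
  Iff.rfl

theorem totalDegree_pderiv_lt {p : PP r} {i : Fin (r + 2)} (h : pderiv i p ≠ 0) :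
    (pderiv i p).totalDegree < p.totalDegree := by
  have h1 : (pderiv i p).support.Nonempty := by
    rw [Finset.nonempty_iff_ne_empty, ne_eq, support_eq_empty]
    exact h
  obtain ⟨m, hm, hm'⟩ := Finset.exists_mem_eq_sup _ h1 (fun s : Fin (r + 2) →₀ ℕ =>
    s.sum fun _ e => e)
  have h2 : (pderiv i p).totalDegree = m.sum fun _ e => e := hm'
  have h3 : m + Finsupp.single i 1 ∈ p.support := by
    rw [mem_support_iff] at hm ⊢
    rw [coeff_pderiv] at hm
    exact left_ne_zero_of_mul hm
  have h4 := le_totalDegree h3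
  rw [Finsupp.sum_add_index' (fun _ => rfl) (fun _ _ _ => rfl), Finsupp.sum_single_index rfl] at h4
  omega

theorem exists_pderiv_not_dvd_self {π : PP r} (hπ : Prime π) : ∃ i, ¬ π ∣ pderiv i π := by
  by_contra hcon
  push Not at hcon
  have h1 : ∀ i, pderiv i π = 0 := by
    intro i
    by_contra h
    have h2 := totalDegree_le_of_dvd_of_isDomain (hcon i) h
    have h3 := totalDegree_pderiv_lt h
    omega
  have h2 : π = C (coeff 0 π) := by
    ext m
    rw [coeff_C]
    split_ifs with h
    · rw [← h]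
    · obtain ⟨i, hi⟩ : ∃ i, m i ≠ 0 := by
        by_contra h3
        push Not at h3
        exact h (Finsupp.ext fun i => by rw [h3 i]; rfl)
      have h3 := congrArg (coeff (m - Finsupp.single i 1)) (h1 i)
      rw [coeff_pderiv, coeff_zero, tsub_add_cancel_of_le (by
        rw [Finsupp.single_le_iff]
        omega)] at h3
      rcases mul_eq_zero.1 h3 with h4 | h4
      · exact h4
      · exact absurd h4 (Nat.cast_add_one_ne_zero _)
  have h3 : coeff 0 π ≠ 0 := by
    intro h
    rw [h, C_0] at h2
    exact hπ.ne_zero h2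
  apply hπ.not_isUnit
  rw [h2]
  exact (IsUnit.mk0 _ h3).map C

theorem exists_pderiv_not_dvd {f : PP r} {d : ℕ} (hd : 1 ≤ d) (hf : f.IsHomogeneous d)
    (hsq : Squarefree f) {π : PP r} (hπ : Prime π) : ∃ i, ¬ π ∣ pderiv i f := by
  by_contra hcon
  push Not at hcon
  have h1 : π ∣ f := by
    have h2 : π ∣ d • f := by
      rw [← hf.sum_X_mul_pderiv]
      exact Finset.dvd_sum fun i _ => (hcon i).mul_left _
    rw [nsmul_eq_mul] at h2
    rcases hπ.dvd_or_dvd h2 with h3 | h3
    · exfalso
      have h4 : IsUnit (d : PP r) := by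
        have h5 : (d : PP r) = C (d : ℂ) := by simp
        rw [h5]
        exact (IsUnit.mk0 _ (by exact_mod_cast (by omega : d ≠ 0))).map C
      exact hπ.not_isUnit (isUnit_of_dvd_unit h3 h4)
    · exact h3
  obtain ⟨g, rfl⟩ := h1
  have h2 : ¬ π ∣ g := by
    rintro ⟨h, rfl⟩
    refine hπ.not_isUnit (hsq π ⟨h, by ring⟩)
  obtain ⟨i, hi⟩ := exists_pderiv_not_dvd_self hπ
  have h3 := hcon i
  rw [pderiv_mul] at h3
  have h4 : π ∣ pderiv i π * g := (dvd_add_left (dvd_mul_right _ _)).1 h3
  rcases hπ.dvd_or_dvd h4 with h5 | h5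
  · exact hi h5
  · exact h2 h5

theorem exists_pderiv_ne_zero {f : PP r} {d : ℕ} (hd : 1 ≤ d) (hf : f.IsHomogeneous d)
    (hf0 : f ≠ 0) : ∃ i, pderiv i f ≠ 0 := by
  by_contra hcon
  push Not at hcon
  have h1 := hf.sum_X_mul_pderiv
  simp only [hcon, mul_zero, Finset.sum_const_zero] at h1
  rw [eq_comm, smul_eq_zero] at h1
  rcases h1 with h1 | h1
  · omega
  · exact hf0 h1

theorem exists_X_not_mem {π : PP r} (hπ : Prime π) :
    ∃ s : Fin (r + 2), (X s : PP r) ∉ (Ideal.span {π} : Ideal (PP r)) := by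
  by_contra hcon
  push Not at hcon
  have h1 : ∀ s : Fin (r + 2), π ∣ (X s : PP r) := fun s => Ideal.mem_span_singleton.1 (hcon s)
  have h2 : Associated π (X 0 : PP r) :=
    (hπ.irreducible.dvd_irreducible_iff_associated (X_prime (R := ℂ)).irreducible).1 (h1 0)
  have h3 : (X 0 : PP r) ∣ X 1 := h2.symm.dvd.trans (h1 1)
  rw [X_dvd_X] at h3
  simp at h3

/-- Koszul syzygies. -/
noncomputable def kos (f : PP r) (i t : Fin (r + 2)) (j : Fin (r + 2)) : PP r :=
  (if j = t then pderiv i f else 0) - (if j = i then pderiv t f else 0)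

theorem kos_mem (f : PP r) (i t : Fin (r + 2)) : kos f i t ∈ syz f := by
  rw [mem_syz]
  unfold kos
  simp only [sub_mul, ite_mul, zero_mul, Finset.sum_sub_distrib, Finset.sum_ite_eq',
    Finset.mem_univ, if_true]
  ring

theorem hdim {f : PP r} {m : ℕ} {ρ : Fin m → Fin (r + 2) → PP r}
    (hρ : Submodule.span (PP r) (Set.range ρ) = syz f) (P : Ideal (PP r)) [P.IsPrime]
    {i : Fin (r + 2)} (hi : pderiv i f ∉ P) :
    r + 1 ≤ Module.finrank (FractionRing (PP r ⧸ P)) (Submodule.span (FractionRing (PP r ⧸ P))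
      (Set.range fun i j => red P (ρ i j))) := by
  set κ := FractionRing (PP r ⧸ P) with hκ
  set W := Submodule.span κ (Set.range fun i j => red P (ρ i j)) with hW
  have h1 : ∀ x ∈ syz f, (fun j => red P (x j)) ∈ W := by
    intro x hx
    rw [← hρ] at hx
    induction hx using Submodule.span_induction with
    | mem x hx =>
      obtain ⟨i, rfl⟩ := hx
      exact Submodule.subset_span ⟨i, rfl⟩
    | zero =>
      have : (fun j => red P ((0 : Fin (r + 2) → PP r) j)) = 0 := by
        funext j
        simp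
      rw [this]
      exact W.zero_mem
    | add x y _ _ hx hy =>
      have : (fun j => red P ((x + y) j)) = (fun j => red P (x j)) + fun j => red P (y j) := by
        funext j
        simp
      rw [this]
      exact W.add_mem hx hy
    | smul a x _ hx =>
      have : (fun j => red P ((a • x) j)) = red P a • fun j => red P (x j) := by
        funext j
        simp
      rw [this]
      exact W.smul_mem _ hx
  have hi' : red P (pderiv i f) ≠ 0 := fun h => hi ((red_eq_zero P).1 h)
  have h2 : W ⊔ Submodule.span κ {(Pi.single i 1 : Fin (r + 2) → κ)} = ⊤ := by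
    rw [eq_top_iff]
    intro x _
    have hx : x = ∑ t, x t • (Pi.single t 1 : Fin (r + 2) → κ) := by
      funext t
      rw [Finset.sum_apply]
      simp [Pi.single_apply]
    rw [hx]
    refine Submodule.sum_mem _ fun t _ => Submodule.smul_mem _ _ ?_
    have h3 := h1 _ (kos_mem f i t)
    have h4 : (Pi.single t 1 : Fin (r + 2) → κ) = (red P (pderiv i f))⁻¹ •
        ((fun j => red P (kos f i t j)) + red P (pderiv t f) • (Pi.single i 1 : Fin (r + 2) → κ))
        := by
      funext j
      simp only [Pi.smul_apply, Pi.add_apply, smul_eq_mul, kos, map_sub, Pi.single_apply]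
      rw [apply_ite (red P), apply_ite (red P), map_zero]
      by_cases h5 : j = t <;> by_cases h6 : j = i <;> simp [h5, h6, hi']
    rw [h4]
    refine Submodule.smul_mem _ _ (Submodule.add_mem _ (Submodule.mem_sup_left h3)
      (Submodule.smul_mem _ _ (Submodule.mem_sup_right (Submodule.mem_span_singleton_self _))))
  have h3 := Submodule.finrank_add_le_finrank_add_finrank W
    (Submodule.span κ {(Pi.single i 1 : Fin (r + 2) → κ)})
  rw [h2, finrank_top, Module.finrank_fin_fun] at h3
  have h4 : Module.finrank κ (Submodule.span κ {(Pi.single i 1 : Fin (r + 2) → κ)}) ≤ 1 := by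
    have h5 := finrank_span_le_card (R := κ) ({(Pi.single i 1 : Fin (r + 2) → κ)} : Set _)
    simpa using h5
  have h5 : r + 1 + 1 ≤ Module.finrank κ W + 1 := h3.trans (Nat.add_le_add_left h4 _)
  exact Nat.le_of_add_le_add_right h5

/-- Saturation. -/
theorem saturated {k : ℕ} {w : Fin k → Fin (r + 2) → PP r}
    (hw : ∀ π : PP r, Prime π → Indep (Ideal.span {π}) w) (g : PP r) :
    g ≠ 0 → ∀ (x : Fin (r + 2) → PP r) (a : Fin k → PP r), (∀ j, g * x j = ∑ i, a i * w i j) →
      ∃ a' : Fin k → PP r, ∀ j, x j = ∑ i, a' i * w i j := by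
  induction g using UniqueFactorizationMonoid.induction_on_prime with
  | h₁ => intro h; exact absurd rfl h
  | h₂ u hu =>
    intro _ x a h
    obtain ⟨v, hv⟩ := hu.exists_left_inv
    refine ⟨fun i => v * a i, fun j => ?_⟩
    have h1 : x j = v * (u * x j) := by rw [← mul_assoc, hv, one_mul]
    rw [h1, h, Finset.mul_sum]
    exact Finset.sum_congr rfl fun i _ => by ring
  | h₃ g π hg hπ ih =>
    intro _ x a h
    have h1 := hw π hπ a fun j => by
      rw [← h, mul_assoc]
      exact Ideal.mul_mem_right _ _ (Ideal.mem_span_singleton_self π)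
    choose b hb using fun i => Ideal.mem_span_singleton.1 (h1 i)
    refine ih hg x b fun j => ?_
    have h2 := h j
    rw [← mul_right_inj' hπ.ne_zero, ← mul_assoc, h2, Finset.mul_sum]
    refine Finset.sum_congr rfl fun i _ => ?_
    rw [hb i]
    ring

end

end Pool.Agent.X177.TS
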