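import Pool.Agent.X177.TS.Basic

set_option autoImplicit false

namespace Pool.Agent.X177.TS

/-- Avoiding finitely many values. -/
theorem avoid {k : Type} [Infinite k] {J : Type} (T : Finset J) (p : J → k → Prop)
    (hp : ∀ j ∈ T, ∀ s t, p j s → p j t → s = t) : ∃ s, ∀ j ∈ T, ¬ p j s := by
  classical
  have h1 : (⋃ j ∈ T, {s | p j s}).Finite := by
    refine Set.Finite.biUnion T.finite_toSet fun j hj => ?_
    exact Set.Subsingleton.finite fun s hs t ht => hp j hj s t hs ht
  obtain ⟨s, hs⟩ := h1.infinite_compl.nonempty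
  refine ⟨s, fun j hj h => hs ?_⟩
  exact Set.mem_biUnion hj h

section Abstract

variable {S : Type} [CommRing S] {N : ℕ}

theorem dep_add (P : Ideal S) [P.IsPrime] {ι : Type} [Fintype ι] {w : ι → Fin N → S}
    {x y : Fin N → S} (hx : Dep P w x) (hy : Dep P w y) : Dep P w (fun j => x j + y j) := by
  obtain ⟨g, hg, a, ha⟩ := hx
  obtain ⟨g', hg', a', ha'⟩ := hy
  refine ⟨g * g', fun h => (Ideal.IsPrime.mem_or_mem ‹_› h).elim hg hg',
    fun i => g' * a i + g * a' i, fun j => ?_⟩
  have h1 : g * g' * (x j + y j) - ∑ i, (g' * a i + g * a' i) * w i j =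
      g' * (g * x j - ∑ i, a i * w i j) + g * (g' * y j - ∑ i, a' i * w i j) := by
    simp only [add_mul, Finset.sum_add_distrib, mul_sub, Finset.mul_sum, mul_assoc]
    ring
  rw [h1]
  exact P.add_mem (P.mul_mem_left _ (ha j)) (P.mul_mem_left _ (ha' j))

theorem dep_mul (P : Ideal S) {ι : Type} [Fintype ι] {w : ι → Fin N → S}
    {x : Fin N → S} (c : S) (hx : Dep P w x) : Dep P w (fun j => c * x j) := by
  obtain ⟨g, hg, a, ha⟩ := hx
  refine ⟨g, hg, fun i => c * a i, fun j => ?_⟩
  have h1 : g * (c * x j) - ∑ i, c * a i * w i j = c * (g * x j - ∑ i, a i * w i j) := by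
    simp only [mul_sub, Finset.mul_sum, mul_assoc]
    ring
  rw [h1]
  exact P.mul_mem_left _ (ha j)

theorem dep_of_mul (P : Ideal S) [P.IsPrime] {ι : Type} [Fintype ι] {w : ι → Fin N → S}
    {x : Fin N → S} {c : S} (hc : c ∉ P) (hx : Dep P w (fun j => c * x j)) : Dep P w x := by
  obtain ⟨g, hg, a, ha⟩ := hx
  refine ⟨g * c, fun h => (Ideal.IsPrime.mem_or_mem ‹_› h).elim hg hc, a, fun j => ?_⟩
  rw [mul_assoc]
  exact ha j

theorem dep_zero (P : Ideal S) [P.IsPrime] {ι : Type} [Fintype ι] {w : ι → Fin N → S} :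
    Dep P w (fun _ => (0 : S)) := by
  refine ⟨1, fun h => (Ideal.ne_top_iff_one P).1 (Ideal.IsPrime.ne_top ‹_›) h, 0, fun j => ?_⟩
  simp

/-- A functional which vanishes on `w` and not on `x`. -/
theorem exists_functional [IsDomain S] {k : ℕ} {w : Fin k → Fin N → S} {x : Fin N → S}
    (h : ¬ Dep ⊥ w x) : ∃ l : Fin N → S, (∀ i, ∑ j, l j * w i j = 0) ∧ ∑ j, l j * x j ≠ 0 := by
  have hp : (⊥ : Ideal S).IsPrime := Ideal.isPrime_bot
  rw [dep_iff] at h
  obtain ⟨f, hf, hf'⟩ := Submodule.exists_dual_map_eq_bot_of_notMem h inferInstance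
  obtain ⟨b, hb, l, hl⟩ := clear ⊥ fun j : Fin N => f (Pi.single j 1)
  have hb' : red (⊥ : Ideal S) b ≠ 0 := fun h' => hb ((red_eq_zero ⊥).1 h')
  have key : ∀ y : Fin N → S, red ⊥ (∑ j, l j * y j) = red ⊥ b * f (fun j => red ⊥ (y j)) := by
    intro y
    have h1 : (fun j => red (⊥ : Ideal S) (y j)) =
        ∑ j, red (⊥ : Ideal S) (y j) • (Pi.single j 1 : Fin N → FractionRing (S ⧸ (⊥ : Ideal S)))
        := by
      funext t
      rw [Finset.sum_apply]
      simp [Pi.single_apply]
    rw [h1, map_sum, map_sum, Finset.mul_sum]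
    refine Finset.sum_congr rfl fun j _ => ?_
    rw [map_mul, ← hl, map_smul, smul_eq_mul]
    ring
  refine ⟨l, fun i => ?_, fun h1 => ?_⟩
  · have h1 := key (w i)
    have h2 : f (fun j => red ⊥ (w i j)) = 0 := by
      have h3 : f (fun j => red ⊥ (w i j)) ∈ Submodule.map f
          (Submodule.span (FractionRing (S ⧸ (⊥ : Ideal S)))
            (Set.range fun i j => red ⊥ (w i j))) :=
        Submodule.mem_map_of_mem (Submodule.subset_span ⟨i, rfl⟩)
      rw [hf'] at h3
      exact (Submodule.mem_bot _).1 h3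
    rw [h2, mul_zero] at h1
    exact (Ideal.mem_bot).1 ((red_eq_zero ⊥).1 h1)
  · have h2 := key x
    rw [h1, map_zero] at h2
    rcases mul_eq_zero.1 h2.symm with h3 | h3
    · exact hb' h3
    · exact hf h3

theorem exchange [IsDomain S] {k : ℕ} {w : Fin k → Fin N → S} {x y : Fin N → S}
    (hx : ¬ Dep ⊥ w x) (hy : ¬ Dep ⊥ (Fin.snoc w x : Fin (k + 1) → Fin N → S) y) :
    ¬ Dep ⊥ (Fin.snoc w y : Fin (k + 1) → Fin N → S) x := by
  rintro ⟨g, hg, a, ha⟩
  have hg' : g ≠ 0 := fun h => hg (by rw [h]; exact Ideal.zero_mem _)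
  have h1 : ∀ j, g * x j = ∑ i : Fin k, a i.castSucc * w i j + a (Fin.last k) * y j := by
    intro j
    have h2 := Ideal.mem_bot.1 (ha j)
    rw [Fin.sum_univ_castSucc] at h2
    simp only [Fin.snoc_castSucc, Fin.snoc_last] at h2
    exact sub_eq_zero.1 h2
  by_cases h2 : a (Fin.last k) = 0
  · refine hx ⟨g, hg, fun i => a i.castSucc, fun j => ?_⟩
    rw [Ideal.mem_bot, h1, h2]
    ring
  · refine hy ⟨a (Fin.last k), fun h => h2 (Ideal.mem_bot.1 h),
      Fin.snoc (fun i => -a i.castSucc) g, fun j => ?_⟩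
    rw [Ideal.mem_bot, Fin.sum_univ_castSucc]
    simp only [Fin.snoc_castSucc, Fin.snoc_last]
    rw [h1 j]
    simp only [neg_mul, Finset.sum_neg_distrib]
    ring

/-- A functional which vanishes on `w` vanishes modulo `P` on whatever depends on `w`. -/
theorem functional_mem (P : Ideal S) [P.IsPrime] {k : ℕ} {w : Fin k → Fin N → S} {x : Fin N → S}
    (hx : Dep P w x) {l : Fin N → S} (hl : ∀ i, ∑ j, l j * w i j = 0) :
    ∑ j, l j * x j ∈ P := by
  obtain ⟨g, hg, a, ha⟩ := hx
  have h1 : g * ∑ j, l j * x j = ∑ j, l j * (g * x j - ∑ i, a i * w i j) := by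
    simp only [mul_sub, Finset.sum_sub_distrib, Finset.mul_sum]
    rw [Finset.sum_comm (f := fun j i => l j * (a i * w i j))]
    have h2 : ∀ i, ∑ j, l j * (a i * w i j) = 0 := by
      intro i
      have h3 : ∑ j, l j * (a i * w i j) = a i * ∑ j, l j * w i j := by
        rw [Finset.mul_sum]
        exact Finset.sum_congr rfl fun j _ => by ring
      rw [h3, hl, mul_zero]
    simp only [h2, Finset.sum_const_zero, sub_zero]
    exact Finset.sum_congr rfl fun j _ => by ring
  have h2 : g * ∑ j, l j * x j ∈ P := by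
    rw [h1]
    exact P.sum_mem fun j _ => P.mul_mem_left _ (ha j)
  exact (Ideal.IsPrime.mem_or_mem ‹_› h2).resolve_left hg

end Abstract

section Step

variable {S k : Type} [Field k] [Infinite k] [CommRing S] [IsDomain S]
  [UniqueFactorizationMonoid S] [Algebra k S] {N : ℕ}

/-- A combination with coefficients in `k`. -/
noncomputable def comb {I : Type} [Fintype I] (v : I → Fin N → S) (c : I → k) (j : Fin N) : S :=
  ∑ i, algebraMap k S (c i) * v i j

omit [Infinite k] [IsDomain S] [UniqueFactorizationMonoid S] in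
theorem comb_add {I : Type} [Fintype I] (v : I → Fin N → S) (c c' : I → k) :
    comb v (c + c') = fun j => comb v c j + comb v c' j := by
  funext j
  unfold comb
  rw [← Finset.sum_add_distrib]
  refine Finset.sum_congr rfl fun i _ => ?_
  rw [Pi.add_apply, map_add]
  ring

omit [Infinite k] [IsDomain S] [UniqueFactorizationMonoid S] in
theorem comb_smul {I : Type} [Fintype I] (v : I → Fin N → S) (s : k) (c : I → k) :
    comb v (s • c) = fun j => algebraMap k S s * comb v c j := by
  funext j
  unfold comb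
  rw [Finset.mul_sum]
  refine Finset.sum_congr rfl fun i _ => ?_
  rw [Pi.smul_apply, smul_eq_mul, map_mul]
  ring

omit [Infinite k] [IsDomain S] [UniqueFactorizationMonoid S] in
theorem comb_single {I : Type} [Fintype I] [DecidableEq I] (v : I → Fin N → S) (i : I) :
    comb (k := k) v (Pi.single i 1) = v i := by
  funext j
  unfold comb
  rw [Finset.sum_eq_single i]
  · simp
  · intro b _ hb
    simp [Pi.single_eq_of_ne hb]
  · simp

/-- The bad coefficients at `P`. -/
noncomputable def bad (k : Type) [Field k] [Algebra k S] (P : Ideal S) [P.IsPrime] {ι : Type}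
    [Fintype ι] (w : ι → Fin N → S) {I : Type} [Fintype I] (v : I → Fin N → S) :
    Submodule k (I → k) where
  carrier := {c | Dep P w (comb v c)}
  add_mem' := by
    intro c c' hc hc'
    show Dep P w (comb v (c + c'))
    rw [comb_add]
    exact dep_add P hc hc'
  zero_mem' := by
    show Dep P w (comb v 0)
    have h1 : comb (k := k) v 0 = fun _ => 0 := by
      funext j
      simp [comb]
    rw [h1]
    exact dep_zero P
  smul_mem' := by
    intro s c hc
    show Dep P w (comb v (s • c))
    rw [comb_smul]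
    exact dep_mul P _ hc

omit [Infinite k] in
theorem line_avoid {E : Type} [AddCommGroup E] [Module k E] {L : Submodule k E} {c e : E}
    (hc : c ∉ L) {s t : k} (hs : c + s • e ∈ L) (ht : c + t • e ∈ L) : s = t := by
  by_contra hne
  have h1 : (s - t) • e ∈ L := by
    have h2 := L.sub_mem hs ht
    rwa [add_sub_add_left_eq_sub, ← sub_smul] at h2
  have h2 : e ∈ L := (L.smul_mem_iff (sub_ne_zero.2 hne)).1 h1
  have h3 := L.sub_mem hs (L.smul_mem s h2)
  rw [add_sub_cancel_right] at h3
  exact hc h3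

omit [IsDomain S] [UniqueFactorizationMonoid S] in
theorem span_isPrime {π : S} (hπ : Prime π) : (Ideal.span {π} : Ideal S).IsPrime :=
  (Ideal.span_singleton_prime hπ.ne_zero).2 hπ

theorem step {r : ℕ} (w : Fin r → Fin N → S) {I : Type} [Fintype I] [DecidableEq I]
    (v : I → Fin N → S) (ha : ∀ π : S, Prime π → ∃ i, ¬ Dep (Ideal.span {π}) w (v i))
    (i i' : I) (hb1 : ¬ Dep ⊥ w (v i))
    (hb2 : ¬ Dep ⊥ (Fin.snoc w (v i) : Fin (r + 1) → Fin N → S) (v i'))
    (L0 : Submodule k (I → k)) (hL0 : L0 ≠ ⊤) :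
    ∃ c : I → k, c ∉ L0 ∧ (∀ π : S, Prime π → ¬ Dep (Ideal.span {π}) w (comb v c)) ∧
      ¬ Dep ⊥ w (comb v c) := by
  classical
  have hp : (⊥ : Ideal S).IsPrime := Ideal.isPrime_bot
  obtain ⟨l, hl, hlx⟩ := exists_functional (exchange hb1 hb2)
  obtain ⟨l', hl', hlx'⟩ := exists_functional hb2
  have hl1 : ∀ t, ∑ j, l j * w t j = 0 := fun t => by simpa using hl t.castSucc
  have hl2 : ∑ j, l j * v i' j = 0 := by simpa using hl (Fin.last r)
  have hl1' : ∀ t, ∑ j, l' j * w t j = 0 := fun t => by simpa using hl' t.castSucc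
  set D := ∑ j, l j * v i j with hD
  set D' := ∑ j, l' j * v i' j with hD'
  have hDD : D * D' ≠ 0 := mul_ne_zero hlx hlx'
  -- the finite set of subspaces
  let B : {π : S // Prime π} → Submodule k (I → k) := fun π =>
    haveI := span_isPrime π.2
    bad k (Ideal.span {π.1}) w v
  have hBmem : ∀ (π : {π : S // Prime π}) (c : I → k),
      c ∈ B π ↔ Dep (Ideal.span {π.1}) w (comb v c) := fun π c => Iff.rfl
  have hBtop : ∀ π, B π ≠ ⊤ := by
    intro π h
    obtain ⟨t, ht⟩ := ha π.1 π.2
    have h1 : (Pi.single t 1 : I → k) ∈ B π := by rw [h]; trivial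
    rw [hBmem, comb_single] at h1
    exact ht h1
  let B0 : Submodule k (I → k) := bad k ⊥ w v
  have hB0 : ∀ c, c ∈ B0 ↔ Dep ⊥ w (comb v c) := fun c => Iff.rfl
  have hB0top : B0 ≠ ⊤ := by
    intro h
    have h1 : (Pi.single i 1 : I → k) ∈ B0 := by rw [h]; trivial
    rw [hB0, comb_single] at h1
    exact hb1 h1
  let FF : Finset {π : S // Prime π} :=
    (UniqueFactorizationMonoid.factors (D * D')).toFinset.attach.image fun q =>
      ⟨q.1, UniqueFactorizationMonoid.prime_of_factor _ (Multiset.mem_toFinset.1 q.2)⟩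
  have hFF : ∀ π : S, Prime π → π ∣ D * D' → ∃ q ∈ FF, Associated π q.1 := by
    intro π hπ h
    obtain ⟨q, hq, hpq⟩ := UniqueFactorizationMonoid.exists_mem_factors_of_dvd hDD
      hπ.irreducible h
    exact ⟨⟨q, UniqueFactorizationMonoid.prime_of_factor _ hq⟩,
      Finset.mem_image.2 ⟨⟨q, Multiset.mem_toFinset.2 hq⟩, Finset.mem_attach _ _, rfl⟩, hpq⟩
  let T : Finset (Submodule k (I → k)) := insert L0 (insert B0 (FF.image B))
  have hT : ⊤ ∉ T := by
    intro h
    rcases Finset.mem_insert.1 h with h | h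
    · exact hL0 h.symm
    rcases Finset.mem_insert.1 h with h | h
    · exact hB0top h.symm
    · obtain ⟨π, _, h⟩ := Finset.mem_image.1 h
      exact hBtop π h
  obtain ⟨c0, hc0⟩ : ∃ c0 : I → k, ∀ L ∈ T, c0 ∉ L := by
    have h1 := Subspace.biUnion_ne_univ_of_top_notMem hT
    rw [Set.ne_univ_iff_exists_notMem] at h1
    obtain ⟨c0, h1⟩ := h1
    refine ⟨c0, fun L hL h2 => h1 (Set.mem_biUnion hL h2)⟩
  -- values of the functionals
  have hfun : ∀ (m : Fin N → S) (c e : I → k) (s : k), ∑ j, m j * comb v (c + s • e) j =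
      ∑ j, m j * comb v c j + algebraMap k S s * ∑ j, m j * comb v e j := by
    intro m c e s
    rw [Finset.mul_sum, ← Finset.sum_add_distrib]
    refine Finset.sum_congr rfl fun j _ => ?_
    rw [comb_add, comb_smul]
    ring
  have hval : ∀ (m : Fin N → S) (t : I), ∑ j, m j * comb v (Pi.single t (1 : k)) j =
      ∑ j, m j * v t j := by
    intro m t
    rw [comb_single]
  have hinj : ∀ (A E : S), E ≠ 0 → ∀ s t : k, A + algebraMap k S s * E = A + algebraMap k S t * E →
      s = t := by
    intro A E hE s t h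
    have h1 := mul_right_cancel₀ hE (add_left_cancel h)
    exact (algebraMap k S).injective h1
  -- first choice
  obtain ⟨s, hs⟩ := avoid (k := k) (insert none (T.image some))
    (fun (o : Option (Submodule k (I → k))) s => match o with
      | none => ∑ j, l j * comb v c0 j + algebraMap k S s * D = 0
      | some L => c0 + s • (Pi.single i (1 : k) : I → k) ∈ L) (by
      intro o ho s t h1 h2
      match o with
      | none => exact hinj _ _ hlx s t (h1.trans h2.symm)
      | some L =>
        have hL : L ∈ T := by simpa using ho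
        exact line_avoid (hc0 L hL) h1 h2)
  set c1 := c0 + s • (Pi.single i (1 : k) : I → k) with hc1
  have hA : ∑ j, l j * comb v c1 j ≠ 0 := by
    have h1 := hs none (by simp)
    rw [hc1, hfun, hval]
    exact h1
  have hc1T : ∀ L ∈ T, c1 ∉ L := fun L hL => hs (some L) (by simp [hL])
  set A := ∑ j, l j * comb v c1 j with hAdef
  -- second choice
  obtain ⟨t, ht⟩ := avoid (k := k)
    ((T.image Sum.inl) ∪ ((UniqueFactorizationMonoid.factors A).toFinset.image Sum.inr))
    (fun (o : Submodule k (I → k) ⊕ S) t => match o with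
      | Sum.inl L => c1 + t • (Pi.single i' (1 : k) : I → k) ∈ L
      | Sum.inr π => ¬ π ∣ D' ∧ π ∣ ∑ j, l' j * comb v c1 j + algebraMap k S t * D') (by
      intro o ho s t h1 h2
      match o with
      | Sum.inl L =>
        have hL : L ∈ T := by simpa using ho
        exact line_avoid (hc1T L hL) h1 h2
      | Sum.inr π =>
        have hπ : π ∈ UniqueFactorizationMonoid.factors A := by simpa using ho
        have hπp := UniqueFactorizationMonoid.prime_of_factor _ hπ
        obtain ⟨h3, h4⟩ := h1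
        obtain ⟨_, h5⟩ := h2
        by_contra hne
        have h6 := dvd_sub h4 h5
        have h7 : ∑ j, l' j * comb v c1 j + algebraMap k S s * D' -
            (∑ j, l' j * comb v c1 j + algebraMap k S t * D') = algebraMap k S (s - t) * D' := by
          rw [map_sub]
          ring
        rw [h7] at h6
        rcases hπp.dvd_or_dvd h6 with h8 | h8
        · have h9 : IsUnit (algebraMap k S (s - t)) :=
            (IsUnit.mk0 _ (sub_ne_zero.2 hne)).map (algebraMap k S)
          exact hπp.not_unit (isUnit_of_dvd_unit h8 h9)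
        · exact h3 h8)
  have hcT : ∀ L ∈ T, c1 + t • (Pi.single i' (1 : k) : I → k) ∉ L := fun L hL =>
    ht (Sum.inl L) (by simp [hL])
  set c := c1 + t • (Pi.single i' (1 : k) : I → k) with hc
  refine ⟨c, hcT L0 (by simp [T]), fun π hπ hdep => ?_, fun hdep => hcT B0 (by simp [T])
    ((hB0 c).2 hdep)⟩
  have hπP := span_isPrime hπ
  by_cases h1 : π ∣ D * D'
  · obtain ⟨q, hq, hassoc⟩ := hFF π hπ h1
    refine hcT (B q) (by simp only [T, Finset.mem_insert, Finset.mem_image]; tauto) ?_
    rw [hBmem, ← Ideal.span_singleton_eq_span_singleton.2 hassoc]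
    exact hdep
  · have h2 := Ideal.mem_span_singleton.1 (functional_mem _ hdep hl1)
    have h3 := Ideal.mem_span_singleton.1 (functional_mem _ hdep hl1')
    rw [hc, hfun, hval, hl2, mul_zero, add_zero] at h2
    rw [hc, hfun, hval] at h3
    obtain ⟨q, hq, hassoc⟩ := UniqueFactorizationMonoid.exists_mem_factors_of_dvd hA
      hπ.irreducible h2
    refine ht (Sum.inr q) (by simp [hq]) ⟨fun h4 => h1 ?_, ?_⟩
    · exact (hassoc.dvd.trans h4).mul_left D
    · exact hassoc.symm.dvd.trans h3

end Step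

end Pool.Agent.X177.TS
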